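import Mathlib
import Pool.Agent.Lib.MP_ae9b13_ag.Defs
import Pool.Agent.Lib.MP_ae9b13_ag.Reduce2

/-!
# ACC for the volumes of canonical threshold polytopes: the toric and nondegenerate case

Let `X` be the toric variety of a fan in `ℤ^d` and let `Δ`, `D_1, …, D_s` be divisors on `X` whose
components are toric prime divisors and (closures of) zero sets of general Laurent polynomials with
given sets of exponents, with coefficients in a DCC set `Γ` of nonnegative reals, such that the
`D_i` are `ℝ`-Cartier and `(X, Δ)` is canonical. The canonical threshold polytope is the set of
`t ≥ 0` for which `(X, Δ + ∑ t_i D_i)` is canonical. We show that the volumes of these polytopes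
satisfy the ascending chain condition, for all `d` and `s`.

The proof is a compactness argument. For a sequence of tuples and a cone spanned by `k` linearly
independent rays the lattices `N_n ⊇ ℤ^k` subconverge to a closed set `H` containing all of them
(characters annihilating infinitely many of the `N_n`), the Newton polyhedra of the general
hypersurfaces in the coordinates of the rays form, after passing to a subsequence, a decreasing
sequence of upper sets of `ℕ^k` (such upper sets are well-quasi-ordered), and the coefficients
increase. So a limit of points of the polytopes satisfies all the inequalities of each of the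
members, and a Hausdorff limit of the polytopes is contained in a member, while its volume is at
least the supremum of the volumes.
-/

set_option autoImplicit false

namespace Pool.Agent.Results.MP_ae9b13_ag.ToricVolumeACC

open MeasureTheory MPae9b13

/-- ACC for the volumes of canonical threshold polytopes of toric pairs with nondegenerate
components. -/
theorem result : ∀ (d s : ℕ) (Γ : Set ℝ), 2 ≤ d → (∀ x ∈ Γ, 0 ≤ x) →
    (¬ ∃ x : ℕ → ℝ, (∀ n, x n ∈ Γ) ∧ StrictAnti x) →
    ¬ ∃ T : ℕ → Tuple d s Γ, ∀ n, volume (polytope (T n)) < volume (polytope (T (n + 1))) := by
  intro d s Γ _ hΓ hdcc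
  rintro ⟨T, hT⟩
  have hpwo : Γ.IsPWO := by
    refine Set.IsWF.isPWO ?_
    rw [Set.isWF_iff_no_descending_seq]
    exact fun f hf h => hdcc ⟨f, h, hf⟩
  have hG : ∀ x ∈ insert 0 Γ, (0 : ℝ) ≤ x := by
    rintro x (rfl | hx)
    · exact le_refl _
    · exact hΓ x hx
  exact Core.main hG (hpwo.insert 0) (fun n => polytope (T n)) (fun n => adm (T n) hΓ) hT

end Pool.Agent.Results.MP_ae9b13_ag.ToricVolumeACC
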